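import Pool.Agent.Run7.h460.DG.Cub
import Pool.Agent.R395.CT.Alg

/-!
# A partial algorithm for the diagonal cubics `a x³ + b y³ = c`
-/

set_option autoImplicit false

namespace Run7.h460.DG

open Pool.Agent.Helper446 Pool.Agent.W960.GA
open Pool.Agent.Y703.CT
open Pool.Agent.R395.CT

/-- the polynomial `a x³ + b y³ - c` -/
def diag (a b c : ℤ) : List (List ℤ) := [[-c, 0, 0, b], [], [], [a]]

theorem diag_inj {a b c a' b' c' : ℤ} (h : diag a b c = diag a' b' c') :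
    a = a' ∧ b = b' ∧ c = c' := by
  unfold diag at h
  injection h with h1 h2
  injection h1 with h3 h4
  injection h4 with _ h5
  injection h5 with _ h6
  injection h6 with h7 _
  injection h2 with _ h8
  injection h8 with _ h9
  injection h9 with h10 _
  injection h10 with h11 _
  exact ⟨h11, h7, neg_injective h3⟩

/-- there is a proof that `a x³ + b y³ = c` has infinitely many rational solutions: `a b c = D m³` with
`D > 2` cube-free and one rational solution with `x y ≠ 0` -/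
def DInf (L : List (List ℤ)) : Prop :=
  ∃ w : (ℤ × ℤ × ℤ) × (ℕ × ℤ) × (ℤ × ℤ × ℤ), (CF w.2.1.1 ∧ 2 < w.2.1.1) ∧ ¬ w.2.1.2 = 0 ∧
    L = diag w.1.1 w.1.2.1 w.1.2.2 ∧
    w.1.1 * w.1.2.1 * w.1.2.2 = w.2.1.1 * (w.2.1.2 * w.2.1.2 * w.2.1.2) ∧
    ¬ w.2.2.1 = 0 ∧ ¬ w.2.2.2.1 = 0 ∧ ¬ w.2.2.2.2 = 0 ∧
    w.1.1 * (w.2.2.1 * w.2.2.1 * w.2.2.1) + w.1.2.1 * (w.2.2.2.1 * w.2.2.2.1 * w.2.2.2.1) =
      w.1.2.2 * (w.2.2.2.2 * w.2.2.2.2 * w.2.2.2.2)

/-- there is a proof that `a x³ + b y³ = c` has finitely many rational solutions: `a b c = D m³` with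
`D = 1` or `D` in the class and without splitting -/
def DFin (L : List (List ℤ)) : Prop :=
  ∃ w : (ℤ × ℤ × ℤ) × (ℕ × ℤ), (w.2.1 = 1 ∨ (Cls w.2.1 ∧ NoSplit w.2.1)) ∧ ¬ w.2.2 = 0 ∧
    L = diag w.1.1 w.1.2.1 w.1.2.2 ∧
    w.1.1 * w.1.2.1 * w.1.2.2 = w.2.1 * (w.2.2 * w.2.2 * w.2.2)

section

variable {α : Type} [Primcodable α]

attribute [local fun_prop] ciadd cisub cimul cineg cicast

@[local fun_prop] theorem cdiag {f g h : α → ℤ} (hf : Computable f) (hg : Computable g)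
    (hh : Computable h) : Computable (fun x => diag (f x) (g x) (h x)) := by
  unfold diag
  have h1 : Computable fun x => [-(h x), 0, 0, g x] :=
    Computable.list_cons.comp (by fun_prop) (Computable.list_cons.comp (Computable.const _)
      (Computable.list_cons.comp (Computable.const _) (Computable.list_cons.comp (by fun_prop)
        (Computable.const _))))
  have h2 : Computable fun x => [f x] := Computable.list_cons.comp (by fun_prop) (Computable.const _)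
  exact Computable.list_cons.comp h1 (Computable.list_cons.comp (Computable.const _)
    (Computable.list_cons.comp (Computable.const _) (Computable.list_cons.comp h2
      (Computable.const _))))

theorem re_DInf : REPred DInf := by
  unfold DInf
  refine RE.ex (p := fun (L : List (List ℤ)) (w : (ℤ × ℤ × ℤ) × (ℕ × ℤ) × (ℤ × ℤ × ℤ)) =>
    (CF w.2.1.1 ∧ 2 < w.2.1.1) ∧ ¬ w.2.1.2 = 0 ∧
    L = diag w.1.1 w.1.2.1 w.1.2.2 ∧
    w.1.1 * w.1.2.1 * w.1.2.2 = w.2.1.1 * (w.2.1.2 * w.2.1.2 * w.2.1.2) ∧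
    ¬ w.2.2.1 = 0 ∧ ¬ w.2.2.2.1 = 0 ∧ ¬ w.2.2.2.2 = 0 ∧
    w.1.1 * (w.2.2.1 * w.2.2.1 * w.2.2.1) + w.1.2.1 * (w.2.2.2.1 * w.2.2.2.1 * w.2.2.2.1) =
      w.1.2.2 * (w.2.2.2.2 * w.2.2.2.2 * w.2.2.2.2)) ?_
  have h1 : ComputablePred fun x : List (List ℤ) × ((ℤ × ℤ × ℤ) × (ℕ × ℤ) × (ℤ × ℤ × ℤ)) =>
      CF x.2.2.1.1 := cp_cf (by fun_prop)
  refine RE.of_comput (cp_and (cp_and h1 (RE.cp_lt (by fun_prop) (by fun_prop)))
    (cp_and (cp_not (RE.cp_eq (by fun_prop) (by fun_prop)))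
    (cp_and (RE.cp_eq (by fun_prop) (by fun_prop))
    (cp_and (RE.cp_eq (by fun_prop) (by fun_prop))
    (cp_and (cp_not (RE.cp_eq (by fun_prop) (by fun_prop)))
    (cp_and (cp_not (RE.cp_eq (by fun_prop) (by fun_prop)))
    (cp_and (cp_not (RE.cp_eq (by fun_prop) (by fun_prop)))
    (RE.cp_eq (by fun_prop) (by fun_prop)))))))))

theorem re_DFin : REPred DFin := by
  unfold DFin
  refine RE.ex (p := fun (L : List (List ℤ)) (w : (ℤ × ℤ × ℤ) × (ℕ × ℤ)) =>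
    (w.2.1 = 1 ∨ (Cls w.2.1 ∧ NoSplit w.2.1)) ∧ ¬ w.2.2 = 0 ∧
    L = diag w.1.1 w.1.2.1 w.1.2.2 ∧
    w.1.1 * w.1.2.1 * w.1.2.2 = w.2.1 * (w.2.2 * w.2.2 * w.2.2)) ?_
  refine RE.of_comput (cp_and (cp_or (RE.cp_eq (by fun_prop) (by fun_prop))
    (cp_CN (by fun_prop))) (cp_and (cp_not (RE.cp_eq (by fun_prop) (by fun_prop)))
    (cp_and (RE.cp_eq (by fun_prop) (by fun_prop)) (RE.cp_eq (by fun_prop) (by fun_prop)))))

end

/-- the partial algorithm: it halts if one of the two searches is successful -/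
theorem exists_alg : ∃ φ : List (List ℤ) →. Bool, Partrec φ ∧
    (∀ L, (φ L).Dom ↔ DInf L ∨ DFin L) ∧
    ∀ L, ∀ r ∈ φ L, (r = true ∧ DInf L) ∨ (r = false ∧ DFin L) := by
  have hr : REPred fun x : List (List ℤ) × Bool =>
      (x.2 = true ∧ DInf x.1) ∨ (x.2 = false ∧ DFin x.1) := by
    refine RE.or (RE.and (RE.eq (by fun_prop) (by fun_prop)) (RE.comp re_DInf (by fun_prop)))
      (RE.and (RE.eq (by fun_prop) (by fun_prop)) (RE.comp re_DFin (by fun_prop)))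
  obtain ⟨f, hf, h1, h2⟩ := RE.uniformize
    (r := fun (L : List (List ℤ)) (b : Bool) => (b = true ∧ DInf L) ∨ (b = false ∧ DFin L)) hr
  refine ⟨f, hf, fun L => ?_, h2⟩
  rw [h1 L]
  constructor
  · rintro ⟨b, ⟨-, h⟩ | ⟨-, h⟩⟩
    · exact Or.inl h
    · exact Or.inr h
  · rintro (h | h)
    · exact ⟨true, Or.inl ⟨rfl, h⟩⟩
    · exact ⟨false, Or.inr ⟨rfl, h⟩⟩

/-! ### soundness and completeness -/

theorem dInf_sound {L : List (List ℤ)} (h : DInf L) :
    ∃ a b c, L = diag a b c ∧ (DS a b c).Infinite := by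
  obtain ⟨⟨⟨a, b, c⟩, ⟨D, m⟩, x, y, z⟩, ⟨h1, h2⟩, h3, h4, h5, hx, hy, hz, h6⟩ := h
  simp only at h1 h2 h3 h4 h5 hx hy hz h6
  refine ⟨a, b, c, h4, ?_⟩
  have hzq : (z : ℚ) ≠ 0 := by exact_mod_cast hz
  have hxq : (x : ℚ) ≠ 0 := by exact_mod_cast hx
  have hyq : (y : ℚ) ≠ 0 := by exact_mod_cast hy
  have h7 := infinite_of (a := a) (b := b) (c := c) (D := (D : ℤ)) (m := m) (by exact_mod_cast h2)
    (fun p hp hd => h1.2 p hp (by exact_mod_cast hd)) h3 (by rw [h5]; ring)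
    ⟨((x : ℚ) / z, (y : ℚ) / z), ?_, div_ne_zero hxq hzq, div_ne_zero hyq hzq⟩
  · exact h7.mono fun p hp => hp.1
  · show (a : ℚ) * ((x : ℚ) / z) ^ 3 + b * ((y : ℚ) / z) ^ 3 = c
    rw [div_pow, div_pow, mul_div_assoc', mul_div_assoc', ← add_div,
      div_eq_iff (pow_ne_zero 3 hzq)]
    have h8 : a * x ^ 3 + b * y ^ 3 = c * z ^ 3 := by linear_combination h6
    exact_mod_cast h8

/-- completeness of the search for solutions, given the finiteness for `D = 2` -/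
theorem dInf_complete (h2 : (Sol 2).Finite) {a b c : ℤ} (ha : a ≠ 0) (hb : b ≠ 0) (hc : c ≠ 0)
    (h : (DS a b c).Infinite) : DInf (diag a b c) := by
  obtain ⟨D, m, hD, hm, e⟩ := exists_cf_int (a * b * c) (mul_ne_zero (mul_ne_zero ha hb) hc)
  have hN : (DN a b c).Infinite := by
    by_contra hcon
    exact h (DS_finite ha hb (Set.not_infinite.1 hcon))
  obtain ⟨⟨X, Y⟩, hp, hX, hY⟩ := hN.nonempty
  have hp : (a : ℚ) * X ^ 3 + b * Y ^ 3 = c := hp
  have hX : X ≠ 0 := hX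
  have hY : Y ≠ 0 := hY
  have hD2 : 2 < D := by
    by_contra hcon
    have h5 := hD.1
    have h6 : D = 1 ∨ D = 2 := by omega
    refine h (finite_of ha hb hc ?_)
    rw [e]
    rcases h6 with h6 | h6
    · subst h6
      exact Set.not_infinite.1 fun h7 => (sol_scale hm).1 h7 (by
        rw [Nat.cast_one]
        exact sol_one)
    · subst h6
      exact Set.not_infinite.1 fun h7 => (sol_scale hm).1 h7 (by exact_mod_cast h2)
  have hXd : (X.den : ℚ) ≠ 0 := by exact_mod_cast X.den_nz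
  have hYd : (Y.den : ℚ) ≠ 0 := by exact_mod_cast Y.den_nz
  have eX : X * X.den = X.num := Rat.mul_den_eq_num X
  have eY : Y * Y.den = Y.num := Rat.mul_den_eq_num Y
  refine ⟨⟨⟨a, b, c⟩, ⟨D, m⟩, X.num * Y.den, Y.num * X.den, X.den * Y.den⟩, ⟨hD, hD2⟩, hm, rfl, ?_,
    ?_, ?_, ?_, ?_⟩
  · show a * b * c = (D : ℤ) * (m * m * m)
    rw [e]
    ring
  · show ¬ X.num * (Y.den : ℤ) = 0
    exact mul_ne_zero (Rat.num_ne_zero.2 hX) (by exact_mod_cast Y.den_nz)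
  · show ¬ Y.num * (X.den : ℤ) = 0
    exact mul_ne_zero (Rat.num_ne_zero.2 hY) (by exact_mod_cast X.den_nz)
  · show ¬ (X.den : ℤ) * (Y.den : ℤ) = 0
    exact mul_ne_zero (by exact_mod_cast X.den_nz) (by exact_mod_cast Y.den_nz)
  · show a * (X.num * (Y.den : ℤ) * (X.num * Y.den) * (X.num * Y.den)) +
      b * (Y.num * (X.den : ℤ) * (Y.num * X.den) * (Y.num * X.den)) =
      c * ((X.den : ℤ) * Y.den * (X.den * Y.den) * (X.den * Y.den))
    have h9 : (a : ℚ) * (X.num * Y.den * (X.num * Y.den) * (X.num * Y.den)) +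
        b * (Y.num * X.den * (Y.num * X.den) * (Y.num * X.den)) =
        c * (X.den * Y.den * (X.den * Y.den) * (X.den * Y.den)) := by
      rw [← eX, ← eY]
      linear_combination (X.den : ℚ) ^ 3 * (Y.den : ℚ) ^ 3 * hp
    exact_mod_cast h9

end Run7.h460.DG
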