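import Pool.Agent.R395.CT.Hur

/-!
# Diagonal cubics `a x³ + b y³ = c` and `X³ + Y³ = a b c`

* The classical map of degree nine from `a x³ + b y³ = c` to `X³ + Y³ = a b c` has finite fibres, so
  `a x³ + b y³ = c` has finitely many rational solutions if this is true for `X³ + Y³ = a b c`.
* Let `a b c = D m³` with `D > 2` cube-free and `m ≠ 0`. If `a x³ + b y³ = c` has a rational solution with
  `x y ≠ 0`, then it has infinitely many: the tangent process is compatible with the map above, and the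
  denominator of the image in `X³ + Y³ = D` increases.
-/

set_option autoImplicit false

namespace Run7.h460.DG

open Pool.Agent.R395.CT (Sol cop den_eq four_le)

/-- the rational solutions of `a x³ + b y³ = c` -/
def DS (a b c : ℤ) : Set (ℚ × ℚ) := {p | (a : ℚ) * p.1 ^ 3 + b * p.2 ^ 3 = c}

def P (u v : ℚ) : ℚ := u ^ 3 + 6 * u ^ 2 * v + 3 * u * v ^ 2 - v ^ 3

def R (u v : ℚ) : ℚ := - u ^ 3 + 3 * u ^ 2 * v + 6 * u * v ^ 2 + v ^ 3

def Q (u v : ℚ) : ℚ := u ^ 2 + u * v + v ^ 2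

theorem Q_ne {u v : ℚ} (hu : u ≠ 0) : Q u v ≠ 0 := by
  unfold Q
  have h1 : 0 < u ^ 2 := by positivity
  nlinarith [sq_nonneg (u + 2 * v)]

/-- the map on the affine points -/
noncomputable def F (a b : ℤ) (p : ℚ × ℚ) : ℚ × ℚ :=
  (P (a * p.1 ^ 3) (b * p.2 ^ 3) / (3 * Q (a * p.1 ^ 3) (b * p.2 ^ 3) * (p.1 * p.2)),
   R (a * p.1 ^ 3) (b * p.2 ^ 3) / (3 * Q (a * p.1 ^ 3) (b * p.2 ^ 3) * (p.1 * p.2)))

theorem F_mem {a b c : ℤ} (ha : a ≠ 0) {p : ℚ × ℚ} (hp : p ∈ DS a b c) (h1 : p.1 ≠ 0)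
    (h2 : p.2 ≠ 0) : F a b p ∈ Sol (a * b * c) := by
  obtain ⟨x, y⟩ := p
  have hp : (a : ℚ) * x ^ 3 + b * y ^ 3 = c := hp
  have h1 : x ≠ 0 := h1
  have h2 : y ≠ 0 := h2
  have haq : (a : ℚ) ≠ 0 := by exact_mod_cast ha
  have hu : (a : ℚ) * x ^ 3 ≠ 0 := mul_ne_zero haq (pow_ne_zero 3 h1)
  have hQ := Q_ne (v := (b : ℚ) * y ^ 3) hu
  show (P (a * x ^ 3) (b * y ^ 3) / (3 * Q (a * x ^ 3) (b * y ^ 3) * (x * y))) ^ 3 +
    (R (a * x ^ 3) (b * y ^ 3) / (3 * Q (a * x ^ 3) (b * y ^ 3) * (x * y))) ^ 3 =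
    ((a * b * c : ℤ) : ℚ)
  have hd : 3 * Q (a * x ^ 3) (b * y ^ 3) * (x * y) ≠ 0 :=
    mul_ne_zero (mul_ne_zero (by norm_num) hQ) (mul_ne_zero h1 h2)
  rw [div_pow, div_pow, ← add_div, div_eq_iff (pow_ne_zero 3 hd)]
  push_cast
  rw [← hp]
  unfold P R Q
  ring

theorem finite_line (f : ℚ × ℚ → ℚ) (s : Set (ℚ × ℚ)) (k0 k1 k2 k3 : ℚ) (h3 : k3 ≠ 0)
    (hs : ∀ p ∈ s, k3 * f p ^ 3 + k2 * f p ^ 2 + k1 * f p + k0 = 0) (hf : Set.InjOn f s) :
    s.Finite := by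
  refine Set.Finite.of_finite_image ?_ hf
  classical
  set q : Polynomial ℚ := Polynomial.C k3 * Polynomial.X ^ 3 + Polynomial.C k2 * Polynomial.X ^ 2 +
    Polynomial.C k1 * Polynomial.X + Polynomial.C k0 with hq
  have hq0 : q ≠ 0 := by
    intro h
    have := congrArg (fun r : Polynomial ℚ => r.coeff 3) h
    simp [hq] at this
    exact h3 this
  refine (q.roots.toFinset.finite_toSet).subset ?_
  rintro _ ⟨p, hp, rfl⟩
  rw [Finset.mem_coe, Multiset.mem_toFinset, Polynomial.mem_roots hq0, Polynomial.IsRoot.def, hq]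
  simp only [Polynomial.eval_add, Polynomial.eval_mul, Polynomial.eval_C, Polynomial.eval_pow,
    Polynomial.eval_X]
  exact hs p hp

theorem cube_inj {x y : ℚ} (h : x ^ 3 = y ^ 3) : x = y :=
  (Odd.strictMono_pow (R := ℚ) (n := 3) (by decide)).injective h

/-- the solutions with `x y ≠ 0` -/
def DN (a b c : ℤ) : Set (ℚ × ℚ) := {p | p ∈ DS a b c ∧ p.1 ≠ 0 ∧ p.2 ≠ 0}

theorem DS_finite {a b c : ℤ} (ha : a ≠ 0) (hb : b ≠ 0) (h : (DN a b c).Finite) :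
    (DS a b c).Finite := by
  have haq : (a : ℚ) ≠ 0 := by exact_mod_cast ha
  have hbq : (b : ℚ) ≠ 0 := by exact_mod_cast hb
  have e : DS a b c ⊆ DN a b c ∪ ({p | p ∈ DS a b c ∧ p.1 = 0} ∪ {p | p ∈ DS a b c ∧ p.2 = 0}) := by
    intro p hp
    by_cases h1 : p.1 = 0
    · exact Or.inr (Or.inl ⟨hp, h1⟩)
    · by_cases h2 : p.2 = 0
      · exact Or.inr (Or.inr ⟨hp, h2⟩)
      · exact Or.inl ⟨hp, h1, h2⟩
  refine (h.union (Set.Finite.union ?_ ?_)).subset e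
  · refine Set.Subsingleton.finite ?_
    rintro ⟨x, y⟩ ⟨hp, h1⟩ ⟨x', y'⟩ ⟨hp', h1'⟩
    have hp : (a : ℚ) * x ^ 3 + b * y ^ 3 = c := hp
    have hp' : (a : ℚ) * x' ^ 3 + b * y' ^ 3 = c := hp'
    have h1 : x = 0 := h1
    have h1' : x' = 0 := h1'
    subst h1 h1'
    refine Prod.ext rfl (cube_inj (mul_left_cancel₀ hbq ?_))
    show (b : ℚ) * y ^ 3 = b * y' ^ 3
    linear_combination hp - hp'
  · refine Set.Subsingleton.finite ?_
    rintro ⟨x, y⟩ ⟨hp, h1⟩ ⟨x', y'⟩ ⟨hp', h1'⟩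
    have hp : (a : ℚ) * x ^ 3 + b * y ^ 3 = c := hp
    have hp' : (a : ℚ) * x' ^ 3 + b * y' ^ 3 = c := hp'
    have h1 : y = 0 := h1
    have h1' : y' = 0 := h1'
    subst h1 h1'
    refine Prod.ext (cube_inj (mul_left_cancel₀ haq ?_)) rfl
    show (a : ℚ) * x ^ 3 = a * x' ^ 3
    linear_combination hp - hp'

/-- finiteness goes from `X³ + Y³ = a b c` to `a x³ + b y³ = c` -/
theorem finite_of {a b c : ℤ} (ha : a ≠ 0) (hb : b ≠ 0) (hc : c ≠ 0)
    (h : (Sol (a * b * c)).Finite) : (DS a b c).Finite := by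
  have haq : (a : ℚ) ≠ 0 := by exact_mod_cast ha
  have hbq : (b : ℚ) ≠ 0 := by exact_mod_cast hb
  have hcq : (c : ℚ) ≠ 0 := by exact_mod_cast hc
  refine DS_finite ha hb (Set.Finite.of_finite_fibers (F a b) (h.subset ?_) ?_)
  · rintro _ ⟨p, ⟨hp, h1, h2⟩, rfl⟩
    exact F_mem ha hp h1 h2
  · rintro _ ⟨p, ⟨hp, h1, h2⟩, rfl⟩
    have hm := F_mem ha hp h1 h2
    generalize F a b p = r at hm ⊢
    obtain ⟨α, β⟩ := r
    have hαβ : α ^ 3 + β ^ 3 = ((a * b * c : ℤ) : ℚ) := hm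
    have hne : α + β ≠ 0 := by
      intro h0
      have h3 : α ^ 3 + β ^ 3 = 0 := by
        have : β = - α := by linear_combination h0
        rw [this]
        ring
      rw [h3] at hαβ
      have h4 : a * b * c = 0 := by exact_mod_cast hαβ.symm
      exact mul_ne_zero (mul_ne_zero ha hb) hc h4
    refine finite_line (fun p => (a : ℚ) * p.1 ^ 3) _
      (- (α + β) * (c : ℚ) ^ 3) ((6 * β - 3 * α) * c ^ 2)
      ((6 * α - 3 * β) * c) (- (α + β)) (neg_ne_zero.2 hne) ?_ ?_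
    · rintro ⟨x, y⟩ ⟨⟨hp, h1, h2⟩, h⟩
      have hp : (a : ℚ) * x ^ 3 + b * y ^ 3 = c := hp
      have h1 : x ≠ 0 := h1
      have h2 : y ≠ 0 := h2
      have hu : (a : ℚ) * x ^ 3 ≠ 0 := mul_ne_zero haq (pow_ne_zero 3 h1)
      have hQ := Q_ne (v := (b : ℚ) * y ^ 3) hu
      have hd : 3 * Q (a * x ^ 3) (b * y ^ 3) * (x * y) ≠ 0 :=
        mul_ne_zero (mul_ne_zero (by norm_num) hQ) (mul_ne_zero h1 h2)
      have h : F a b (x, y) = (α, β) := h
      have e1 : P (a * x ^ 3) (b * y ^ 3) / (3 * Q (a * x ^ 3) (b * y ^ 3) * (x * y)) = α :=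
        congrArg Prod.fst h
      have e2 : R (a * x ^ 3) (b * y ^ 3) / (3 * Q (a * x ^ 3) (b * y ^ 3) * (x * y)) = β :=
        congrArg Prod.snd h
      rw [div_eq_iff hd] at e1 e2
      have hv : (b : ℚ) * y ^ 3 = c - a * x ^ 3 := by linear_combination hp
      show - (α + β) * ((a : ℚ) * x ^ 3) ^ 3 + (6 * α - 3 * β) * c * (a * x ^ 3) ^ 2 +
        (6 * β - 3 * α) * c ^ 2 * (a * x ^ 3) + - (α + β) * c ^ 3 = 0
      have e3 : β * P (a * x ^ 3) (b * y ^ 3) - α * R (a * x ^ 3) (b * y ^ 3) = 0 := by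
        rw [e1, e2]
        ring
      rw [hv] at e3
      unfold P R at e3
      linear_combination e3
    · rintro ⟨x, y⟩ ⟨⟨hp, -, -⟩, -⟩ ⟨x', y'⟩ ⟨⟨hp', -, -⟩, -⟩ h
      have hp : (a : ℚ) * x ^ 3 + b * y ^ 3 = c := hp
      have hp' : (a : ℚ) * x' ^ 3 + b * y' ^ 3 = c := hp'
      have h : (a : ℚ) * x ^ 3 = a * x' ^ 3 := h
      refine Prod.ext (cube_inj (mul_left_cancel₀ haq h)) (cube_inj (mul_left_cancel₀ hbq ?_))
      show (b : ℚ) * y ^ 3 = b * y' ^ 3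
      linear_combination hp - hp' - h

/-! ### the tangent process -/

/-- doubling increases the denominator (helper395, with the formula) -/
theorem double {D : ℤ} (hD : 2 < D) (hcf : ∀ p : ℕ, p.Prime → ¬ (p : ℤ) ^ 3 ∣ D) {X Y : ℚ}
    (h : X ^ 3 + Y ^ 3 = (D : ℚ)) :
    X ^ 3 - Y ^ 3 ≠ 0 ∧ X.den < (X * (X ^ 3 + 2 * Y ^ 3) / (X ^ 3 - Y ^ 3)).den := by
  obtain ⟨e, h1⟩ := den_eq h
  have eX' : X = (X.num : ℚ) / (X.den : ℤ) := by
    rw [Int.cast_natCast]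
    exact (Rat.num_div_den X).symm
  have eY' : Y = (Y.num : ℚ) / (X.den : ℤ) := by
    rw [e, Int.cast_natCast]
    exact (Rat.num_div_den Y).symm
  set x := X.num with hx
  set y := Y.num with hy
  set z : ℤ := (X.den : ℤ) with hz
  have hz0 : z ≠ 0 := by rw [hz]; exact_mod_cast X.den_nz
  have hzpos : 0 < z := by rw [hz]; exact_mod_cast X.den_pos
  have cxz : IsCoprime x z := Int.isCoprime_iff_gcd_eq_one.2 X.reduced
  have cxy : IsCoprime x y := by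
    rw [Int.isCoprime_iff_gcd_eq_one]
    by_contra hg
    obtain ⟨p, hp, hpg⟩ := Nat.exists_prime_and_dvd hg
    have hpx : (p : ℤ) ∣ x := (Int.natCast_dvd_natCast.2 hpg).trans (Int.gcd_dvd_left _ _)
    have hpy : (p : ℤ) ∣ y := (Int.natCast_dvd_natCast.2 hpg).trans (Int.gcd_dvd_right _ _)
    have h2 : (p : ℤ) ^ 3 ∣ D * z ^ 3 := by
      rw [← h1]
      exact dvd_add (pow_dvd_pow_of_dvd hpx 3) (pow_dvd_pow_of_dvd hpy 3)
    have h3 : IsCoprime ((p : ℤ) ^ 3) (z ^ 3) :=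
      (IsCoprime.of_isCoprime_of_dvd_left cxz hpx).pow
    exact hcf p hp (h3.dvd_of_dvd_mul_right h2)
  set n : ℤ := x ^ 3 - y ^ 3 with hn
  have hn4 : 3 < |n| := four_le hD hz0 cxy h1
  have hn0 : n ≠ 0 := by
    intro h0
    rw [h0] at hn4
    norm_num at hn4
  have cnx : IsCoprime n x := by
    have h2 : IsCoprime (y ^ 3) x := cxy.symm.pow_left
    have h3 : n = -(y ^ 3) + x * x ^ 2 := by rw [hn]; ring
    rw [h3]
    exact (IsCoprime.neg_left h2).add_mul_left_left _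
  set x' : ℤ := x * (x ^ 3 + 2 * y ^ 3) with hx'
  set z' : ℤ := z * n with hz'
  have hz'0 : z' ≠ 0 := mul_ne_zero hz0 hn0
  have cx'z : IsCoprime x' z := by
    have h2 : IsCoprime (x ^ 4) z := cxz.pow_left
    have h3 : x' = -(x ^ 4) + z * (2 * x * D * z ^ 2) := by
      rw [hx']
      linear_combination 2 * x * h1
    rw [h3]
    exact (IsCoprime.neg_left h2).add_mul_left_left _
  have hzq0 : (z : ℚ) ≠ 0 := by exact_mod_cast hz0
  have hnq : (x : ℚ) ^ 3 - (y : ℚ) ^ 3 ≠ 0 := by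
    intro h0
    refine hn0 ?_
    rw [hn]
    exact_mod_cast h0
  have hdiff : X ^ 3 - Y ^ 3 = ((x : ℚ) ^ 3 - (y : ℚ) ^ 3) / (z : ℚ) ^ 3 := by
    rw [eX', eY', div_pow, div_pow, ← sub_div]
  have hdiff0 : X ^ 3 - Y ^ 3 ≠ 0 := by
    rw [hdiff]
    exact div_ne_zero hnq (pow_ne_zero 3 hzq0)
  refine ⟨hdiff0, ?_⟩
  have hval : X * (X ^ 3 + 2 * Y ^ 3) / (X ^ 3 - Y ^ 3) = (x' : ℚ) / z' := by
    have hzq' : (z' : ℚ) ≠ 0 := by exact_mod_cast hz'0
    rw [div_eq_div_iff hdiff0 hzq', hdiff, hx', hz', hn]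
    push_cast
    rw [eX', eY']
    field_simp
  rw [hval]
  set q : ℚ := (x' : ℚ) / z' with hQ
  have hzq : (z' : ℚ) ≠ 0 := by exact_mod_cast hz'0
  have h2 : q * z' = x' := by rw [hQ]; field_simp
  have h3 : q * q.den = q.num := Rat.mul_den_eq_num q
  have h4 : q.num * z' = x' * (q.den : ℤ) := by
    have : (q.num : ℚ) * z' = x' * (q.den : ℚ) := by
      rw [← h3, ← h2]
      ring
    exact_mod_cast this
  set d : ℤ := (q.den : ℤ) with hd
  have hdpos : 0 < d := by rw [hd]; exact_mod_cast q.den_pos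
  have h5 : z ∣ d := by
    refine cx'z.symm.dvd_of_dvd_mul_left ?_
    rw [← h4, hz']
    exact Dvd.intro (q.num * n) (by ring)
  obtain ⟨d', hd'⟩ := h5
  have h6 : n ∣ 3 * d' := by
    have h7 : n ∣ x' * d' := by
      refine Dvd.intro_left q.num ?_
      have h8 : (q.num * n - x' * d') * z = 0 := by
        rw [hz', hd'] at h4
        linear_combination h4
      have := (mul_eq_zero.1 h8).resolve_right hz0
      linarith
    have h8 : n ∣ x ^ 4 * (3 * d') := by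
      have h9 : x ^ 4 * (3 * d') = x' * d' + n * (2 * x * d') := by
        rw [hx', hn]
        ring
      rw [h9]
      exact dvd_add h7 (dvd_mul_right _ _)
    exact (cnx.pow_right).dvd_of_dvd_mul_left h8
  have hd'pos : 0 < d' := by
    rw [hd'] at hdpos
    exact (pos_iff_pos_of_mul_pos hdpos).1 hzpos
  have h7 : |n| ≤ 3 * d' := by
    have := Int.le_of_dvd (by positivity) ((abs_dvd _ _).2 h6)
    exact this
  have h8 : 2 ≤ d' := by omega
  have h9 : z < d := by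
    rw [hd']
    nlinarith
  rw [hz, hd] at h9
  exact_mod_cast h9

/-- One solution with `x y ≠ 0` of `a x³ + b y³ = c` gives infinitely many, if `a b c` is a cube-free number
greater than `2` times a cube. -/
theorem infinite_of {a b c : ℤ} {D m : ℤ} (hD : 2 < D)
    (hcf : ∀ p : ℕ, p.Prime → ¬ (p : ℤ) ^ 3 ∣ D) (hm : m ≠ 0) (habc : a * b * c = D * m ^ 3)
    (h : (DN a b c).Nonempty) : (DN a b c).Infinite := by
  have hD0 : D ≠ 0 := by omega
  have h0 : a * b * c ≠ 0 := by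
    rw [habc]
    exact mul_ne_zero hD0 (pow_ne_zero 3 hm)
  have ha : a ≠ 0 := left_ne_zero_of_mul (left_ne_zero_of_mul h0)
  have hb : b ≠ 0 := right_ne_zero_of_mul (left_ne_zero_of_mul h0)
  have haq : (a : ℚ) ≠ 0 := by exact_mod_cast ha
  have hbq : (b : ℚ) ≠ 0 := by exact_mod_cast hb
  have hmq : (m : ℚ) ≠ 0 := by exact_mod_cast hm
  intro hfin
  obtain ⟨p, hp, hmax⟩ := hfin.exists_maximalFor (fun p : ℚ × ℚ => ((F a b p).1 / m).den) _ h
  obtain ⟨x, y⟩ := p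
  have hmem := F_mem ha hp.1 hp.2.1 hp.2.2
  obtain ⟨hp, hx, hy⟩ := hp
  have hp : (a : ℚ) * x ^ 3 + b * y ^ 3 = c := hp
  have hx : x ≠ 0 := hx
  have hy : y ≠ 0 := hy
  obtain ⟨u, hu⟩ : ∃ u : ℚ, u = (a : ℚ) * x ^ 3 := ⟨_, rfl⟩
  obtain ⟨v, hv⟩ : ∃ v : ℚ, v = (b : ℚ) * y ^ 3 := ⟨_, rfl⟩
  have hu0 : u ≠ 0 := by
    rw [hu]
    exact mul_ne_zero haq (pow_ne_zero 3 hx)
  have hQ := Q_ne (v := v) hu0
  have hcv : (c : ℚ) = u + v := by rw [hu, hv, hp]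
  set Z : ℚ := 3 * Q u v * (x * y) with hZ
  have hZ0 : Z ≠ 0 := mul_ne_zero (mul_ne_zero (by norm_num) hQ) (mul_ne_zero hx hy)
  have hF : F a b (x, y) = (P u v / Z, R u v / Z) := by
    rw [hZ, hu, hv]
    rfl
  rw [hF] at hmem
  have hmem : (P u v / Z) ^ 3 + (R u v / Z) ^ 3 = ((a * b * c : ℤ) : ℚ) := hmem
  -- the point on `X³ + Y³ = D`
  have hE : (P u v / Z / m) ^ 3 + (R u v / Z / m) ^ 3 = (D : ℚ) := by
    rw [div_pow _ (m : ℚ), div_pow _ (m : ℚ), ← add_div, hmem, habc, div_eq_iff (pow_ne_zero 3 hmq)]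
    push_cast
    ring
  obtain ⟨hne, hlt⟩ := double hD hcf hE
  have hPR : P u v ^ 3 - R u v ^ 3 ≠ 0 := by
    intro h1
    refine hne ?_
    have h2 : (P u v / Z / m) ^ 3 - (R u v / Z / m) ^ 3 = (P u v ^ 3 - R u v ^ 3) / (Z * m) ^ 3 := by
      field_simp
    rw [h2, h1, zero_div]
  have hfac : P u v ^ 3 - R u v ^ 3 = (u - v) * (2 * u + v) * (u + 2 * v) *
      (P u v ^ 2 + P u v * R u v + R u v ^ 2) := by
    unfold P R
    ring
  have h1 : u - v ≠ 0 := fun h => hPR (by rw [hfac, h]; ring)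
  have h2 : 2 * u + v ≠ 0 := fun h => hPR (by rw [hfac, h]; ring)
  have h3 : u + 2 * v ≠ 0 := fun h => hPR (by rw [hfac, h]; ring)
  -- the tangent process
  set x' : ℚ := x * (u + 2 * v) / (u - v) with hx'
  set y' : ℚ := - (y * (2 * u + v)) / (u - v) with hy'
  have hx'0 : x' ≠ 0 := div_ne_zero (mul_ne_zero hx h3) h1
  have hy'0 : y' ≠ 0 := div_ne_zero (neg_ne_zero.2 (mul_ne_zero hy h2)) h1
  have hu' : (a : ℚ) * x' ^ 3 = u * (u + 2 * v) ^ 3 / (u - v) ^ 3 := by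
    rw [hx', div_pow, mul_pow, mul_div_assoc', ← mul_assoc, ← hu]
  have hv' : (b : ℚ) * y' ^ 3 = - (v * (2 * u + v) ^ 3) / (u - v) ^ 3 := by
    rw [hy', div_pow, mul_div_assoc']
    congr 1
    rw [hv]
    ring
  have hp' : (a : ℚ) * x' ^ 3 + b * y' ^ 3 = c := by
    rw [hu', hv', ← add_div, div_eq_iff (pow_ne_zero 3 h1), hcv]
    ring
  have hmem' : (x', y') ∈ DN a b c := ⟨hp', hx'0, hy'0⟩
  have hval : (F a b (x', y')).1 / m = P u v / Z / m * ((P u v / Z / m) ^ 3 + 2 * (R u v / Z / m) ^ 3) /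
      ((P u v / Z / m) ^ 3 - (R u v / Z / m) ^ 3) := by
    have e1 : (F a b (x', y')).1 = P ((a : ℚ) * x' ^ 3) (b * y' ^ 3) /
      (3 * Q (a * x' ^ 3) (b * y' ^ 3) * (x' * y')) := rfl
    have e2 : P ((a : ℚ) * x' ^ 3) (b * y' ^ 3) =
        - (P u v * (P u v ^ 3 + 2 * R u v ^ 3)) / (u - v) ^ 9 := by
      rw [hu', hv', eq_div_iff (pow_ne_zero 9 h1)]
      unfold P R
      field_simp
      ring
    have e3 : Q ((a : ℚ) * x' ^ 3) (b * y' ^ 3) =
        Q u v * (P u v ^ 2 + P u v * R u v + R u v ^ 2) / (u - v) ^ 6 := by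
      rw [hu', hv', eq_div_iff (pow_ne_zero 6 h1)]
      unfold P R Q
      field_simp
      ring
    have hS : P u v ^ 2 + P u v * R u v + R u v ^ 2 ≠ 0 := fun h => hPR (by rw [hfac, h]; ring)
    have e4 : 3 * Q (a * x' ^ 3) (b * y' ^ 3) * (x' * y') =
        - (Z * (P u v ^ 3 - R u v ^ 3)) / (u - v) ^ 9 := by
      rw [e3, hfac, hx', hy', hZ]
      field_simp
    rw [e1, e2, e4]
    have e5 : (P u v / Z / m) ^ 3 - (R u v / Z / m) ^ 3 = (P u v ^ 3 - R u v ^ 3) / (Z * m) ^ 3 := by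
      field_simp
    have e6 : P u v / Z / m * ((P u v / Z / m) ^ 3 + 2 * (R u v / Z / m) ^ 3) =
        P u v * (P u v ^ 3 + 2 * R u v ^ 3) / (Z * m) ^ 4 := by
      field_simp
    rw [e5, e6]
    generalize P u v * (P u v ^ 3 + 2 * R u v ^ 3) = A
    generalize P u v ^ 3 - R u v ^ 3 = B at hPR
    have h9 : (u - v) ^ 9 ≠ 0 := pow_ne_zero 9 h1
    generalize (u - v) ^ 9 = W at h9
    field_simp
  have hle := hmax (j := (x', y')) hmem' (by
    show ((F a b (x, y)).1 / m).den ≤ ((F a b (x', y')).1 / m).den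
    rw [hval, hF]
    exact hlt.le)
  have hle : ((F a b (x', y')).1 / m).den ≤ ((F a b (x, y)).1 / m).den := hle
  rw [hval, hF] at hle
  exact absurd hlt (not_lt.2 hle)

end Run7.h460.DG
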